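import Pool.Agent.DQ2.Stmts

set_option autoImplicit false

/-!
# Row NUL: the zero set of an irreducible polynomial is irreducible
-/

open MvPolynomial

namespace Pool.Agent.DQ2.H24

open Pool.Agent.DQ2

/-- If `g` vanishes on the zero set of the irreducible polynomial `F` then `F` divides `g`. -/
lemma dvd_of_vanish {E : Type} [Field E] [IsAlgClosed E] {N : ℕ} {F : MvPolynomial (Fin N) E}
    (hF : Irreducible F) (g : MvPolynomial (Fin N) E)
    (h : ∀ y, eval y F = 0 → eval y g = 0) : F ∣ g := by
  have hp : Prime F := hF.prime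
  have hP : (Ideal.span {F}).IsPrime := (Ideal.span_singleton_prime hF.ne_zero).2 hp
  have h1 : vanishingIdeal E (zeroLocus E (Ideal.span {F})) = Ideal.span {F} :=
    IsPrime.vanishingIdeal_zeroLocus (Ideal.span {F})
  have h2 : g ∈ vanishingIdeal E (zeroLocus E (Ideal.span {F})) := by
    rw [mem_vanishingIdeal_iff]
    intro x hx
    rw [mem_zeroLocus_iff] at hx
    have h3 := hx F (Ideal.mem_span_singleton_self F)
    exact h x h3
  rw [h1, Ideal.mem_span_singleton] at h2
  exact h2

theorem nul : NUL := by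
  intro E _ _ N F hF
  constructor
  · intro g₁ g₂ ⟨y₁, h1, h2⟩ ⟨y₂, h3, h4⟩
    by_contra hc
    have hd : F ∣ g₁ * g₂ := by
      apply dvd_of_vanish hF
      intro y hy
      rw [eval_mul]
      by_cases h : eval y g₁ = 0
      · rw [h, zero_mul]
      · by_cases h' : eval y g₂ = 0
        · rw [h', mul_zero]
        · exact absurd ⟨y, hy, h, h'⟩ hc
    rcases hF.prime.dvd_or_dvd hd with ⟨q, hq⟩ | ⟨q, hq⟩
    · apply h2
      rw [hq, eval_mul, h1, zero_mul]
    · apply h4
      rw [hq, eval_mul, h3, zero_mul]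
  · intro g hg
    by_contra hc
    apply hg
    apply dvd_of_vanish hF
    intro y hy
    by_contra h
    exact hc ⟨y, hy, h⟩

end Pool.Agent.DQ2.H24
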